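import Pool.Agent.H143.MDS.Defs3

/-!
# Determination of the exponents (task `exp_core` of the MDS structure theorem)
-/

namespace Pool.Agent.H143.MDS

open Polynomial

section
variable {F : Type*} [Field F] [Fintype F] [DecidableEq F] [CharP F 2]

omit [Fintype F] [DecidableEq F] in
/-- Cramer's rule in characteristic two -/
theorem exp_core_cramer (l0 l1 l : Fin 2 → F) (h01 : l0 0 * l1 1 + l0 1 * l1 0 ≠ 0) :
    ∃ a b : F, ∀ y : Fin 2 → F, y ⬝ᵥ l = a * (y ⬝ᵥ l0) + b * (y ⬝ᵥ l1) := by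
  have h2 : (2 : F) = 0 := CharTwo.two_eq_zero
  refine ⟨(l 0 * l1 1 + l 1 * l1 0) / (l0 0 * l1 1 + l0 1 * l1 0),
    (l0 0 * l 1 + l0 1 * l 0) / (l0 0 * l1 1 + l0 1 * l1 0), fun y => ?_⟩
  simp only [dotProduct, Fin.sum_univ_two]
  rw [div_mul_eq_mul_div, div_mul_eq_mul_div, ← add_div, eq_div_iff h01]
  linear_combination (-(y 0 * l1 0 * l 1 * l0 0 + y 1 * l1 1 * l 0 * l0 1)) * h2

omit [Fintype F] [DecidableEq F] [CharP F 2] in
theorem exp_core_zero (l0 l1 : Fin 2 → F) (h01 : l0 0 * l1 1 - l0 1 * l1 0 ≠ 0) (y : Fin 2 → F)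
    (h0 : y ⬝ᵥ l0 = 0) (h1 : y ⬝ᵥ l1 = 0) : y = 0 := by
  simp only [dotProduct, Fin.sum_univ_two] at h0 h1
  have e0 : y 0 * (l0 0 * l1 1 - l0 1 * l1 0) = 0 := by
    linear_combination l1 1 * h0 - l0 1 * h1
  have e1 : y 1 * (l0 0 * l1 1 - l0 1 * l1 0) = 0 := by
    linear_combination l0 0 * h1 - l1 0 * h0
  funext k
  fin_cases k
  · simpa using (mul_eq_zero.1 e0).resolve_right h01
  · simpa using (mul_eq_zero.1 e1).resolve_right h01

/-- determination of the exponents -/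
theorem exp_core_proof (i j : ℕ) (hi : 1 ≤ i) (hj : 1 ≤ j) (hi2 : 2 ^ (i + 1) ≤ Fintype.card F)
    (hj2 : 2 ^ (j + 1) ≤ Fintype.card F) (l0 l1 l2 l3 : Fin 2 → F)
    (h01 : l0 0 * l1 1 + l0 1 * l1 0 ≠ 0) (h2 : l2 ≠ 0) (h3 : l3 ≠ 0) (c : F) (hc : c ≠ 0)
    {κ : Type*} [Fintype κ] (hκ : 3 * Fintype.card F ≤ 4 * Fintype.card κ)
    (y : κ → Fin 2 → F) (hy : NP y)
    (h : ∀ k, (y k ⬝ᵥ l0) ^ (2 ^ i - 1) * (y k ⬝ᵥ l3) ^ 2 ^ j =
      c * ((y k ⬝ᵥ l2) ^ 2 ^ i * (y k ⬝ᵥ l1) ^ (2 ^ j - 1))) :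
    2 ^ (i + 1) = Fintype.card F := by
  classical
  by_contra hne
  have : Fact (Nat.Prime 2) := ⟨Nat.prime_two⟩
  obtain ⟨n, -, hn⟩ := FiniteField.card F 2
  have hin : i + 2 ≤ n := by
    have h1 : i + 1 ≤ (n : ℕ) := by
      rw [hn] at hi2
      exact (Nat.pow_le_pow_iff_right (by norm_num)).1 hi2
    have h2 : i + 1 ≠ (n : ℕ) := by
      intro he
      exact hne (by rw [hn, he])
    omega
  have hI4 : 4 * 2 ^ i ≤ Fintype.card F := by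
    rw [hn]
    calc 4 * 2 ^ i = 2 ^ (i + 2) := by ring
      _ ≤ 2 ^ (n : ℕ) := Nat.pow_le_pow_right (by norm_num) hin
  have hJ2 : 2 * 2 ^ j ≤ Fintype.card F := by
    calc 2 * 2 ^ j = 2 ^ (j + 1) := by ring
      _ ≤ _ := hj2
  have hI2 : 2 ≤ 2 ^ i := by
    calc 2 = 2 ^ 1 := by norm_num
      _ ≤ 2 ^ i := Nat.pow_le_pow_right (by norm_num) hi
  have hJ1 : 2 ≤ 2 ^ j := by
    calc 2 = 2 ^ 1 := by norm_num
      _ ≤ 2 ^ j := Nat.pow_le_pow_right (by norm_num) hj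
  have h01' : l0 0 * l1 1 - l0 1 * l1 0 ≠ 0 := by rwa [CharTwo.sub_eq_add]
  obtain ⟨a, b, hab⟩ := exp_core_cramer l0 l1 l3 h01
  obtain ⟨a', b', hab'⟩ := exp_core_cramer l0 l1 l2 h01
  have hab0 : ¬ (a = 0 ∧ b = 0) := by
    rintro ⟨rfl, rfl⟩
    apply h3
    funext k
    have := hab (Pi.single k 1)
    simpa using this
  -- the Frobenius expansions
  have hk : ∀ k, a ^ 2 ^ j * (y k ⬝ᵥ l0) ^ (2 ^ i + 2 ^ j - 1) +
      b ^ 2 ^ j * ((y k ⬝ᵥ l0) ^ (2 ^ i - 1) * (y k ⬝ᵥ l1) ^ 2 ^ j) =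
      c * a' ^ 2 ^ i * ((y k ⬝ᵥ l0) ^ 2 ^ i * (y k ⬝ᵥ l1) ^ (2 ^ j - 1)) +
      c * b' ^ 2 ^ i * (y k ⬝ᵥ l1) ^ (2 ^ i + 2 ^ j - 1) := by
    intro k
    have hh := h k
    rw [hab (y k), hab' (y k), add_pow_char_pow, add_pow_char_pow, mul_pow, mul_pow, mul_pow,
      mul_pow] at hh
    have e1 : 2 ^ i + 2 ^ j - 1 = (2 ^ i - 1) + 2 ^ j := by omega
    have e2 : 2 ^ i + 2 ^ j - 1 = 2 ^ i + (2 ^ j - 1) := by omega
    calc _ = (y k ⬝ᵥ l0) ^ (2 ^ i - 1) * (a ^ 2 ^ j * (y k ⬝ᵥ l0) ^ 2 ^ j +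
          b ^ 2 ^ j * (y k ⬝ᵥ l1) ^ 2 ^ j) := by rw [e1, pow_add]; ring
      _ = _ := hh
      _ = _ := by rw [e2, pow_add]; ring
  obtain ⟨hy0, hyp⟩ := hy
  -- the quotient map is injective
  have hinj : Function.Injective
      (fun k : {k : κ // y k ⬝ᵥ l1 ≠ 0} => (y k.1 ⬝ᵥ l0) / (y k.1 ⬝ᵥ l1)) := by
    rintro ⟨k, hkk⟩ ⟨k', hkk'⟩ he
    by_contra hne'
    have hne'' : k ≠ k' := fun h => hne' (Subtype.ext h)
    simp only at he
    rw [div_eq_div_iff hkk hkk'] at he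
    apply hyp k k' hne'' ((y k ⬝ᵥ l1) / (y k' ⬝ᵥ l1))
    have hz : y k - ((y k ⬝ᵥ l1) / (y k' ⬝ᵥ l1)) • y k' = 0 := by
      apply exp_core_zero l0 l1 h01'
      · rw [sub_dotProduct, smul_dotProduct, smul_eq_mul]
        field_simp
        linear_combination he
      · rw [sub_dotProduct, smul_dotProduct, smul_eq_mul]
        field_simp
        ring
    exact sub_eq_zero.1 hz
  -- the polynomial
  set g : F[X] := C (a ^ 2 ^ j) * X ^ (2 ^ i + 2 ^ j - 1) + C (b ^ 2 ^ j) * X ^ (2 ^ i - 1) -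
    C (c * a' ^ 2 ^ i) * X ^ 2 ^ i - C (c * b' ^ 2 ^ i) with hg
  have heval : ∀ k : {k : κ // y k ⬝ᵥ l1 ≠ 0}, g.eval ((y k.1 ⬝ᵥ l0) / (y k.1 ⬝ᵥ l1)) = 0 := by
    rintro ⟨k, hkk⟩
    simp only [hg, eval_sub, eval_add, eval_mul, eval_C, eval_pow, eval_X]
    have hD : (y k ⬝ᵥ l1) ^ (2 ^ i + 2 ^ j - 1) ≠ 0 := pow_ne_zero _ hkk
    have e1 : 2 ^ i + 2 ^ j - 1 = (2 ^ i - 1) + 2 ^ j := by omega
    have e2 : 2 ^ i + 2 ^ j - 1 = 2 ^ i + (2 ^ j - 1) := by omega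
    apply mul_right_cancel₀ hD
    rw [zero_mul]
    have f1 : ((y k ⬝ᵥ l0) / (y k ⬝ᵥ l1)) ^ (2 ^ i + 2 ^ j - 1) *
        (y k ⬝ᵥ l1) ^ (2 ^ i + 2 ^ j - 1) = (y k ⬝ᵥ l0) ^ (2 ^ i + 2 ^ j - 1) := by
      rw [← mul_pow, div_mul_cancel₀ _ hkk]
    have f2 : ((y k ⬝ᵥ l0) / (y k ⬝ᵥ l1)) ^ (2 ^ i - 1) * (y k ⬝ᵥ l1) ^ (2 ^ i + 2 ^ j - 1) =
        (y k ⬝ᵥ l0) ^ (2 ^ i - 1) * (y k ⬝ᵥ l1) ^ 2 ^ j := by
      rw [e1, pow_add, ← mul_assoc, ← mul_pow, div_mul_cancel₀ _ hkk]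
    have f3 : ((y k ⬝ᵥ l0) / (y k ⬝ᵥ l1)) ^ (2 ^ i) * (y k ⬝ᵥ l1) ^ (2 ^ i + 2 ^ j - 1) =
        (y k ⬝ᵥ l0) ^ (2 ^ i) * (y k ⬝ᵥ l1) ^ (2 ^ j - 1) := by
      rw [e2, pow_add, ← mul_assoc, ← mul_pow, div_mul_cancel₀ _ hkk]
    have hkk2 := hk k
    rw [← f1, ← f2, ← f3] at hkk2
    linear_combination hkk2
  -- the coefficients
  have hcb : g.coeff (2 ^ i - 1) = b ^ 2 ^ j := by
    rw [hg]
    simp only [coeff_sub, coeff_add, coeff_C_mul, coeff_X_pow, coeff_C]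
    have n1 : 2 ^ i - 1 ≠ 2 ^ i + 2 ^ j - 1 := by omega
    have n2 : 2 ^ i - 1 ≠ 2 ^ i := by omega
    have n3 : 2 ^ i - 1 ≠ 0 := by omega
    simp [n1, n2, n3]
  have hca : g.coeff (2 ^ i + 2 ^ j - 1) = a ^ 2 ^ j := by
    rw [hg]
    simp only [coeff_sub, coeff_add, coeff_C_mul, coeff_X_pow, coeff_C]
    have n1 : 2 ^ i + 2 ^ j - 1 ≠ 2 ^ i - 1 := by omega
    have n2 : 2 ^ i + 2 ^ j - 1 ≠ 2 ^ i := by omega
    have n3 : 2 ^ i + 2 ^ j - 1 ≠ 0 := by omega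
    simp [n1, n2, n3]
  have hgz : g = 0 → False := by
    intro hz
    rw [hz, coeff_zero] at hca hcb
    exact hab0 ⟨pow_eq_zero_iff (by omega) |>.1 hca.symm, pow_eq_zero_iff (by omega) |>.1 hcb.symm⟩
  by_cases hex : ∃ k0, y k0 ⬝ᵥ l1 = 0
  · obtain ⟨k0, hk0⟩ := hex
    have hu0 : y k0 ⬝ᵥ l0 ≠ 0 := fun h0 => hy0 k0 (exp_core_zero l0 l1 h01' _ h0 hk0)
    have ha : a ^ 2 ^ j = 0 := by
      have := hk k0
      rw [hk0, zero_pow (by omega : 2 ^ j ≠ 0), zero_pow (by omega : 2 ^ j - 1 ≠ 0),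
        zero_pow (by omega : 2 ^ i + 2 ^ j - 1 ≠ 0)] at this
      simp only [mul_zero, add_zero] at this
      exact (mul_eq_zero.1 this).resolve_right (pow_ne_zero _ hu0)
    have hcard : Fintype.card κ ≤ Fintype.card {k : κ // y k ⬝ᵥ l1 ≠ 0} + 1 := by
      have hsub : (Finset.univ : Finset κ) ⊆
          insert k0 (Finset.univ.filter (fun k : κ => y k ⬝ᵥ l1 ≠ 0)) := by
        intro k _
        rw [Finset.mem_insert, Finset.mem_filter]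
        by_cases hkk : k = k0
        · exact Or.inl hkk
        · right
          refine ⟨Finset.mem_univ _, fun hk1 => ?_⟩
          apply hyp k k0 hkk ((y k ⬝ᵥ l0) / (y k0 ⬝ᵥ l0))
          have hz : y k - ((y k ⬝ᵥ l0) / (y k0 ⬝ᵥ l0)) • y k0 = 0 := by
            apply exp_core_zero l0 l1 h01'
            · rw [sub_dotProduct, smul_dotProduct, smul_eq_mul]
              field_simp
              ring
            · rw [sub_dotProduct, smul_dotProduct, smul_eq_mul, hk1, hk0]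
              ring
          exact sub_eq_zero.1 hz
      have := Finset.card_le_card hsub
      rw [Fintype.card_subtype]
      calc Fintype.card κ = (Finset.univ : Finset κ).card := rfl
        _ ≤ _ := this
        _ ≤ _ := Finset.card_insert_le _ _
    have hdeg : g.natDegree ≤ 2 ^ i := by
      rw [hg, ha]
      simp only [C_0, zero_mul, zero_add]
      refine (natDegree_sub_le _ _).trans (max_le ((natDegree_sub_le _ _).trans (max_le ?_ ?_)) ?_)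
      · exact (natDegree_C_mul_X_pow_le _ _).trans (by omega)
      · exact natDegree_C_mul_X_pow_le _ _
      · exact (natDegree_C _).le.trans (Nat.zero_le _)
    exact hgz (eq_zero_of_natDegree_lt_card_of_eval_eq_zero g hinj heval (by omega))
  · push Not at hex
    have hcard : Fintype.card κ ≤ Fintype.card {k : κ // y k ⬝ᵥ l1 ≠ 0} := by
      refine Fintype.card_le_of_injective (fun k => ⟨k, hex k⟩) ?_
      intro k k' hkk
      exact congrArg Subtype.val hkk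
    have hdeg : g.natDegree ≤ 2 ^ i + 2 ^ j - 1 := by
      rw [hg]
      refine (natDegree_sub_le _ _).trans (max_le ((natDegree_sub_le _ _).trans (max_le
        ((natDegree_add_le _ _).trans (max_le ?_ ?_)) ?_)) ?_)
      · exact natDegree_C_mul_X_pow_le _ _
      · exact (natDegree_C_mul_X_pow_le _ _).trans (by omega)
      · exact (natDegree_C_mul_X_pow_le _ _).trans (by omega)
      · exact (natDegree_C _).le.trans (Nat.zero_le _)
    exact hgz (eq_zero_of_natDegree_lt_card_of_eval_eq_zero g hinj heval (by omega))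

end

end Pool.Agent.H143.MDS

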